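import Mathlib

/-!
# A poset with 11 elements none of whose optimum interval partitions has a block `[x, y]` with `x`
# minimal and `y` maximal
-/

set_option autoImplicit false

namespace Pool.Agent.Results.MP_2af528_co.NoMinMaxBlock

/-- `P` is an interval partition of `S`: the members are intervals `[x, y]` with `x ≤ y`, they are
pairwise disjoint and their union is `S`. -/
def IsIntervalPartition {S : Type} [PartialOrder S] (P : Set (Set S)) : Prop :=
  (∀ B ∈ P, ∃ x y : S, x ≤ y ∧ B = Set.Icc x y) ∧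
  (∀ B ∈ P, ∀ C ∈ P, B ≠ C → Disjoint B C) ∧ ⋃₀ P = Set.univ

/-- `P` is an optimum interval partition of `S`: it has the minimum number of blocks among all the
interval partitions of `S`. -/
def IsOptimum {S : Type} [PartialOrder S] (P : Set (Set S)) : Prop :=
  IsIntervalPartition P ∧ ∀ Q : Set (Set S), IsIntervalPartition Q → P.ncard ≤ Q.ncard

/-- the points -/
inductive Pt : Type
  | b | a | x1 | x2 | x3 | t | y | u1 | u2 | z | s
  deriving DecidableEq, Fintype

open Pt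

/-- the elements above a given one -/
def up : Pt → List Pt
  | b => [b, a, x1, x2, x3, t, y, u1, u2, z, s]
  | a => [a, x1, x2, x3, t, s]
  | x1 => [x1, t]
  | x2 => [x2, t]
  | x3 => [x3, t]
  | t => [t]
  | y => [y, s]
  | u1 => [u1, z, s]
  | u2 => [u2, z, s]
  | z => [z, s]
  | s => [s]

instance : PartialOrder Pt where
  le p q := q ∈ up p
  le_refl := by decide
  le_trans := by decide
  le_antisymm := by decide

instance (p q : Pt) : Decidable (p ≤ q) := inferInstanceAs (Decidable (q ∈ up p))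

instance (p q : Pt) : Decidable (p < q) := decidable_of_iff (p ≤ q ∧ ¬ q ≤ p) Iff.rfl

lemma block_of {S : Type} [PartialOrder S] {P : Set (Set S)} (hP : IsIntervalPartition P) (e : S) :
    ∃ p q : S, p ≤ e ∧ e ≤ q ∧ Set.Icc p q ∈ P := by
  obtain ⟨h1, -, h3⟩ := hP
  have he : e ∈ ⋃₀ P := by rw [h3]; trivial
  obtain ⟨B, hB, heB⟩ := he
  obtain ⟨p, q, -, rfl⟩ := h1 B hB
  exact ⟨p, q, heB.1, heB.2, hB⟩

/-- an element outside of a block all smaller elements of which are in the block -/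
lemma starts {S : Type} [PartialOrder S] {P : Set (Set S)} (hP : IsIntervalPartition P) {m n e : S}
    (hmn : Set.Icc m n ∈ P) (he : e ∉ Set.Icc m n) (hlt : ∀ p, p < e → p ∈ Set.Icc m n) :
    ∃ q : S, e ≤ q ∧ Set.Icc e q ∈ P := by
  obtain ⟨p, q, hp, hq, hB⟩ := block_of hP e
  rcases hp.lt_or_eq with h | h
  · exfalso
    have h1 : Set.Icc p q ≠ Set.Icc m n := by
      intro h2
      exact he (h2 ▸ ⟨hp, hq⟩)
    exact Set.disjoint_left.1 (hP.2.1 _ hB _ hmn h1) ⟨le_refl p, hp.trans hq⟩ (hlt p h)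
  · exact ⟨q, hq, h ▸ hB⟩

lemma four {S : Type} [PartialOrder S] [Finite S] {P : Set (Set S)} (hP : IsIntervalPartition P)
    {m n e1 e2 e3 : S} (hmn : Set.Icc m n ∈ P) (h12 : e1 ≠ e2) (h13 : e1 ≠ e3) (h23 : e2 ≠ e3)
    (he1 : e1 ∉ Set.Icc m n) (hlt1 : ∀ p, p < e1 → p ∈ Set.Icc m n)
    (he2 : e2 ∉ Set.Icc m n) (hlt2 : ∀ p, p < e2 → p ∈ Set.Icc m n)
    (he3 : e3 ∉ Set.Icc m n) (hlt3 : ∀ p, p < e3 → p ∈ Set.Icc m n) : 4 ≤ P.ncard := by
  obtain ⟨q1, l1, m1⟩ := starts hP hmn he1 hlt1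
  obtain ⟨q2, l2, m2⟩ := starts hP hmn he2 hlt2
  obtain ⟨q3, l3, m3⟩ := starts hP hmn he3 hlt3
  have ne : ∀ {u v q r : S}, u ≠ v → u ≤ q → v ≤ r → Set.Icc u q ≠ Set.Icc v r := by
    intro u v q r huv h1 h2 h3
    have h4 : u ∈ Set.Icc v r := h3 ▸ ⟨le_refl u, h1⟩
    have h5 : v ∈ Set.Icc u q := h3.symm ▸ ⟨le_refl v, h2⟩
    exact huv (le_antisymm h5.1 h4.1)
  have k : ∀ {u q : S}, u ∉ Set.Icc m n → u ≤ q → Set.Icc m n ≠ Set.Icc u q := by
    intro u q h1 h2 h3
    exact h1 (h3 ▸ ⟨le_refl u, h2⟩)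
  have hsub : ({Set.Icc m n, Set.Icc e1 q1, Set.Icc e2 q2, Set.Icc e3 q3} : Set (Set S)) ⊆ P := by
    rintro B (rfl | rfl | rfl | rfl)
    · exact hmn
    · exact m1
    · exact m2
    · exact m3
  have hc : ({Set.Icc m n, Set.Icc e1 q1, Set.Icc e2 q2, Set.Icc e3 q3} : Set (Set S)).ncard = 4 := by
    rw [Set.ncard_insert_of_notMem, Set.ncard_insert_of_notMem, Set.ncard_pair (ne h23 l2 l3)]
    · rintro (h | h)
      · exact ne h12 l1 l2 h
      · exact ne h13 l1 l3 h
    · rintro (h | h | h)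
      · exact k he1 l1 h
      · exact k he2 l2 h
      · exact k he3 l3 h
  rw [← hc]
  exact Set.ncard_le_ncard hsub (Set.toFinite _)

/-- the partition with three blocks -/
lemma three : ∃ Q : Set (Set Pt), IsIntervalPartition Q ∧ Q.ncard ≤ 3 := by
  refine ⟨{Set.Icc a t, Set.Icc b z, Set.Icc y s}, ⟨?_, ?_, ?_⟩, ?_⟩
  · rintro B (rfl | rfl | rfl)
    · exact ⟨a, t, by decide, rfl⟩
    · exact ⟨b, z, by decide, rfl⟩
    · exact ⟨y, s, by decide, rfl⟩
  · have h1 : Disjoint (Set.Icc a t) (Set.Icc b z) := by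
      rw [Set.disjoint_left]
      simp only [Set.mem_Icc]
      decide
    have h2 : Disjoint (Set.Icc a t) (Set.Icc y s) := by
      rw [Set.disjoint_left]
      simp only [Set.mem_Icc]
      decide
    have h3 : Disjoint (Set.Icc b z) (Set.Icc y s) := by
      rw [Set.disjoint_left]
      simp only [Set.mem_Icc]
      decide
    rintro B (rfl | rfl | rfl) C (rfl | rfl | rfl) hne
    · exact absurd rfl hne
    · exact h1
    · exact h2
    · exact h1.symm
    · exact absurd rfl hne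
    · exact h3
    · exact h2.symm
    · exact h3.symm
    · exact absurd rfl hne
  · rw [Set.eq_univ_iff_forall]
    have h : ∀ p : Pt, (a ≤ p ∧ p ≤ t) ∨ (b ≤ p ∧ p ≤ z) ∨ (y ≤ p ∧ p ≤ s) := by decide
    intro p
    rcases h p with h1 | h1 | h1
    · exact ⟨_, Or.inl rfl, h1⟩
    · exact ⟨_, Or.inr (Or.inl rfl), h1⟩
    · exact ⟨_, Or.inr (Or.inr rfl), h1⟩
  · exact (Set.ncard_insert_le _ _).trans (Nat.succ_le_succ ((Set.ncard_insert_le _ _).trans
      (by rw [Set.ncard_singleton])))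

/-- **Theorem.** There is a poset `S` with 11 elements such that no optimum interval partition of `S`
has a block `[x, y]` with `x ≤ y`, `x` minimal and `y` maximal. -/
theorem result : ∃ (S : Type) (_ : PartialOrder S), Nat.card S = 11 ∧
    ∀ P : Set (Set S), IsOptimum P → ¬ ∃ x y : S, IsMin x ∧ IsMax y ∧ x ≤ y ∧ Set.Icc x y ∈ P := by
  refine ⟨Pt, inferInstance, ?_, ?_⟩
  · rw [Nat.card_eq_fintype_card]
    rfl
  rintro P ⟨hP, hopt⟩ ⟨m, n, hm, hn, hle, hB⟩
  obtain ⟨Q, hQ, hQ3⟩ := three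
  have h3 : P.ncard ≤ 3 := (hopt Q hQ).trans hQ3
  have hm' : m = b := by
    have h1 : ∀ m : Pt, b ≤ m := by decide
    exact (hm.eq_of_le (h1 m)).symm
  subst hm'
  have hn' : n = t ∨ n = s := by
    have h1 : ∀ n : Pt, n ≤ t ∨ n ≤ s := by decide
    rcases h1 n with h | h
    · exact Or.inl (hn.eq_of_le h)
    · exact Or.inr (hn.eq_of_le h)
  have h4 : 4 ≤ P.ncard := by
    rcases hn' with rfl | rfl
    · refine four hP hB (e1 := y) (e2 := u1) (e3 := u2) (by decide) (by decide) (by decide)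
        ?_ ?_ ?_ ?_ ?_ ?_ <;> simp only [Set.mem_Icc] <;> decide
    · refine four hP hB (e1 := x1) (e2 := x2) (e3 := x3) (by decide) (by decide) (by decide)
        ?_ ?_ ?_ ?_ ?_ ?_ <;> simp only [Set.mem_Icc] <;> decide
  omega

end Pool.Agent.Results.MP_2af528_co.NoMinMaxBlock
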